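import Mathlib

/-!
Auxiliary facts on real polynomials for the disconnectedness example.
-/

open Polynomial Filter Topology

namespace Pool.Agent.MP_5207c4_ag.H41

/-- number of positive and of negative real roots -/
noncomputable def cnt (p : ℝ[X]) : ℕ × ℕ :=
  ({x : ℝ | 0 < x ∧ p.IsRoot x}.ncard, {x : ℝ | x < 0 ∧ p.IsRoot x}.ncard)

/-- no common real root of `p` and its derivative -/
def Simple (p : ℝ[X]) : Prop := ∀ x : ℝ, p.eval x = 0 → (derivative p).eval x ≠ 0

lemma exists_antideriv (p : ℝ[X]) : ∃ F : ℝ[X], derivative F = p ∧ F.eval 0 = 0 := by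
  induction p using Polynomial.induction_on' with
  | add p q hp hq =>
    obtain ⟨F, hF, hF0⟩ := hp
    obtain ⟨G, hG, hG0⟩ := hq
    exact ⟨F + G, by simp [hF, hG], by simp [hF0, hG0]⟩
  | monomial n a =>
    refine ⟨monomial (n + 1) (a / (n + 1)), ?_, by simp [eval_monomial]⟩
    rw [derivative_monomial]
    have : ((n : ℝ) + 1) ≠ 0 := by positivity
    simp only [Nat.add_sub_cancel]
    congr 1
    push_cast
    field_simp

/-- The data carried through the induction. -/
structure Good (n : ℕ) (q P : ℝ[X]) : Prop where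
  deg : P.natDegree = n + 3
  lead : 0 < P.leadingCoeff
  top : derivative^[n] P = q
  coeff_ne : ∀ j < n + 3, P.coeff j ≠ 0
  simple : ∀ l < n + 3, Simple (derivative^[l] P)
  pos : Odd n → ∀ x, 0 < P.eval x

lemma antideriv_deg {n : ℕ} {P F : ℝ[X]} (hP : P.natDegree = n + 3) (hF : derivative F = P) :
    F.natDegree = n + 4 := by
  have := natDegree_derivative F
  rw [hF, hP] at this
  omega

lemma antideriv_lead {P F : ℝ[X]} (hP : 0 < P.leadingCoeff) (hF : derivative F = P) :
    0 < F.leadingCoeff := by
  have := leadingCoeff_derivative F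
  rw [hF] at this
  rw [this] at hP
  have h : (0 : ℝ) ≤ (F.natDegree : ℝ) := by positivity
  by_contra hneg
  push Not at hneg
  nlinarith

lemma tendsto_atBot_even {F : ℝ[X]} (hl : 0 < F.leadingCoeff) (hd : F.natDegree ≠ 0)
    (he : Even F.natDegree) : Tendsto (fun x => F.eval x) atBot atTop := by
  have h := (isEquivalent_atBot_lead F).symm
  refine h.tendsto_atTop ?_
  refine Tendsto.const_mul_atTop hl ?_
  have h1 : Tendsto (fun x : ℝ => (-x) ^ F.natDegree) atBot atTop :=
    (tendsto_pow_atTop hd).comp tendsto_neg_atBot_atTop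
  refine h1.congr (fun x => ?_)
  rw [he.neg_pow]

lemma tendsto_atBot_odd {F : ℝ[X]} (hl : 0 < F.leadingCoeff)
    (he : Odd F.natDegree) : Tendsto (fun x => F.eval x) atBot atBot := by
  have h := (isEquivalent_atBot_lead F).symm
  refine h.tendsto_atBot ?_
  refine Tendsto.const_mul_atBot hl ?_
  have hd : F.natDegree ≠ 0 := by rintro h0; rw [h0] at he; exact absurd he (by decide)
  have h1 : Tendsto (fun x : ℝ => -((-x) ^ F.natDegree)) atBot atBot :=
    tendsto_neg_atTop_atBot.comp ((tendsto_pow_atTop hd).comp tendsto_neg_atBot_atTop)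
  refine h1.congr (fun x => ?_)
  rw [he.neg_pow, neg_neg]

lemma good_of_antideriv {n : ℕ} {q P F : ℝ[X]} (h : Good n q P) (hF : derivative F = P)
    (h0 : F.eval 0 ≠ 0) (hs : Simple F) (hp : Odd (n + 1) → ∀ x, 0 < F.eval x) :
    Good (n + 1) q F where
  deg := antideriv_deg h.deg hF
  lead := antideriv_lead h.lead hF
  top := by rw [Function.iterate_succ_apply, hF, h.top]
  coeff_ne := by
    intro j hj
    rcases j with _ | j
    · rwa [coeff_zero_eq_eval_zero]
    · have h1 := h.coeff_ne j (by omega)
      rw [← hF, coeff_derivative] at h1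
      exact left_ne_zero_of_mul h1
  simple := by
    intro l hl
    rcases l with _ | l
    · exact hs
    · rw [Function.iterate_succ_apply, hF]
      exact h.simple l (by omega)
  pos := hp

lemma step {n : ℕ} {q P : ℝ[X]} (h : Good n q P) :
    ∃ F : ℝ[X], Good (n + 1) q F ∧ derivative F = P ∧
      cnt F = if Odd n then (0, 1) else (0, 0) := by
  obtain ⟨G, hG, hG0⟩ := exists_antideriv P
  by_cases hn : Odd n
  · have hpos := h.pos hn
    have hF : derivative (G + C 1) = P := by simp [hG]
    set F := G + C 1 with hFdef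
    have hF0 : F.eval 0 = 1 := by simp [hFdef, hG0]
    have hmono : StrictMono (fun x => F.eval x) := by
      apply strictMono_of_deriv_pos
      intro x
      rw [Polynomial.deriv, hF]
      exact hpos x
    have hlead := antideriv_lead h.lead hF
    have hdeg := antideriv_deg h.deg hF
    have hodd : Odd F.natDegree := by
      rw [hdeg]; obtain ⟨k, hk⟩ := hn; exact ⟨k + 2, by omega⟩
    have hbot := tendsto_atBot_odd hlead hodd
    obtain ⟨y, hy⟩ := ((hbot.eventually (eventually_le_atBot 0)).and
      (eventually_le_atBot 0)).exists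
    obtain ⟨z, hz, hz0⟩ : ∃ z ∈ Set.Icc y 0, F.eval z = 0 :=
      intermediate_value_Icc hy.2 F.continuous.continuousOn ⟨hy.1, by simp [hF0]⟩
    have hzneg : z < 0 := by
      rcases hz.2.lt_or_eq with h1 | h1
      · exact h1
      · rw [h1, hF0] at hz0; exact absurd hz0 one_ne_zero
    refine ⟨F, good_of_antideriv h hF (by simp [hF0]) ?_ ?_, hF, ?_⟩
    · intro x _
      rw [hF]; exact (hpos x).ne'
    · intro h1
      exact absurd h1 (by rw [Nat.odd_add_one]; simpa using hn)
    · rw [if_pos hn]
      have e1 : {x : ℝ | 0 < x ∧ F.IsRoot x} = ∅ := by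
        ext x
        simp only [Set.mem_ofPred_eq, Set.mem_empty_iff_false, iff_false, not_and]
        intro hx hr
        have := hmono hx
        simp only [hF0] at this
        rw [hr.eq_zero] at this
        linarith
      have e2 : {x : ℝ | x < 0 ∧ F.IsRoot x} = {z} := by
        ext x
        simp only [Set.mem_ofPred_eq, Set.mem_singleton_iff]
        constructor
        · rintro ⟨_, hr⟩
          apply hmono.injective
          simp only [hz0]; exact hr.eq_zero
        · rintro rfl; exact ⟨hzneg, hz0⟩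
      rw [cnt, e1, e2]; simp
  · have hlead := antideriv_lead h.lead hG
    have hdeg := antideriv_deg h.deg hG
    have heven : Even G.natDegree := by
      rw [hdeg]
      obtain ⟨k, hk⟩ := Nat.not_odd_iff_even.mp hn
      exact ⟨k + 2, by omega⟩
    have hbot := tendsto_atBot_even hlead (by omega) heven
    have htop : Tendsto (fun x => G.eval x) atTop atTop :=
      tendsto_atTop_of_leadingCoeff_nonneg G
        (by rw [← natDegree_pos_iff_degree_pos]; omega) hlead.le
    have hco : Tendsto (fun x => G.eval x) (cocompact ℝ) atTop := by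
      rw [cocompact_eq_atBot_atTop, tendsto_sup]; exact ⟨hbot, htop⟩
    obtain ⟨m, hm⟩ := G.continuous.exists_forall_le hco
    have hF : derivative (G + C (1 - G.eval m)) = P := by simp [hG]
    set F := G + C (1 - G.eval m) with hFdef
    have hpos : ∀ x, 0 < F.eval x := by
      intro x
      have := hm x
      simp only [hFdef, eval_add, eval_C]
      linarith
    refine ⟨F, good_of_antideriv h hF (hpos 0).ne' ?_ (fun _ => hpos), hF, ?_⟩
    · intro x hx
      exact absurd hx (hpos x).ne'
    · rw [if_neg hn]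
      have e1 : {x : ℝ | 0 < x ∧ F.IsRoot x} = ∅ := by
        ext x
        simp only [Set.mem_ofPred_eq, Set.mem_empty_iff_false, iff_false, not_and]
        intro _ hr
        exact (hpos x).ne' hr
      have e2 : {x : ℝ | x < 0 ∧ F.IsRoot x} = ∅ := by
        ext x
        simp only [Set.mem_ofPred_eq, Set.mem_empty_iff_false, iff_false, not_and]
        intro _ hr
        exact (hpos x).ne' hr
      rw [cnt, e1, e2]; simp

lemma exists_pair {q q' : ℝ[X]} (h : Good 0 q q) (h' : Good 0 q' q')
    (hc : ∀ l, cnt (derivative^[l] q) = cnt (derivative^[l] q')) (n : ℕ) :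
    ∃ P P' : ℝ[X], Good n q P ∧ Good n q' P' ∧
      ∀ l, cnt (derivative^[l] P) = cnt (derivative^[l] P') := by
  induction n with
  | zero => exact ⟨q, q', h, h', hc⟩
  | succ n ih =>
    obtain ⟨P, P', hP, hP', hcc⟩ := ih
    obtain ⟨F, hF, hFP, hFc⟩ := step hP
    obtain ⟨F', hF', hFP', hFc'⟩ := step hP'
    refine ⟨F, F', hF, hF', fun l => ?_⟩
    rcases l with _ | l
    · simp [hFc, hFc']
    · rw [Function.iterate_succ_apply, Function.iterate_succ_apply, hFP, hFP']
      exact hcc l

/-- the two starting cubics -/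
noncomputable def cub (c : ℝ) : ℝ[X] := X ^ 3 - C 12 * X ^ 2 + C 45 * X - C c

lemma cub_d1 (c : ℝ) : derivative (cub c) = C 3 * X ^ 2 - C 24 * X + C 45 := by
  simp only [cub, derivative_sub, derivative_add, derivative_X_pow, derivative_mul,
    derivative_C, derivative_X]
  have e : (C (24 : ℝ) : ℝ[X]) = C 12 * C 2 := by rw [← C_mul]; norm_num
  rw [e]
  simp
  ring

lemma cub_good {c : ℝ} (hc : c = 34 ∨ c = 70) : Good 0 (cub c) (cub c) where
  deg := by unfold cub; compute_degree!
  lead := by
    have : (cub c).Monic := by unfold cub; monicity!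
    rw [this.leadingCoeff]; norm_num
  top := rfl
  coeff_ne := by
    intro j hj
    have : j = 0 ∨ j = 1 ∨ j = 2 := by omega
    rcases this with rfl | rfl | rfl <;> rcases hc with rfl | rfl <;>
      simp [cub, coeff_X, coeff_C, coeff_X_pow]
  simple := by
    intro l hl
    have : l = 0 ∨ l = 1 ∨ l = 2 := by omega
    rcases this with rfl | rfl | rfl
    · intro x hx hx'
      simp only [Function.iterate_zero, id, cub_d1] at hx hx'
      simp [cub] at hx hx'
      have h3 : (x - 3) * (x - 5) = 0 := by nlinarith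
      rcases mul_eq_zero.mp h3 with h | h
      · have : x = 3 := by linarith
        subst this
        rcases hc with rfl | rfl <;> norm_num at hx
      · have : x = 5 := by linarith
        subst this
        rcases hc with rfl | rfl <;> norm_num at hx
    · intro x hx hx'
      simp only [Function.iterate_one, cub_d1] at hx hx'
      simp at hx hx'
      have : x = 4 := by linarith
      subst this
      norm_num at hx
    · intro x _ hx'
      simp only [Function.iterate_succ_apply', Function.iterate_zero, id, cub_d1] at hx'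
      simp at hx'
  pos := fun h => absurd h (by decide)

lemma cub_cnt (l : ℕ) : cnt (derivative^[l] (cub 34)) = cnt (derivative^[l] (cub 70)) := by
  rcases l with _ | l
  · have a1 : {x : ℝ | 0 < x ∧ (cub 34).IsRoot x} = {1} := by
      ext x
      simp only [Set.mem_ofPred_eq, Set.mem_singleton_iff, IsRoot.def, cub, eval_sub, eval_add,
        eval_mul, eval_pow, eval_X, eval_C]
      constructor
      · rintro ⟨_, h⟩
        have h1 : (x - 1) * (x ^ 2 - 11 * x + 34) = 0 := by linarith
        have h2 : x ^ 2 - 11 * x + 34 ≠ 0 := by nlinarith [sq_nonneg (2 * x - 11)]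
        have := (mul_eq_zero.mp h1).resolve_right h2
        linarith
      · rintro rfl; norm_num
    have a2 : {x : ℝ | 0 < x ∧ (cub 70).IsRoot x} = {7} := by
      ext x
      simp only [Set.mem_ofPred_eq, Set.mem_singleton_iff, IsRoot.def, cub, eval_sub, eval_add,
        eval_mul, eval_pow, eval_X, eval_C]
      constructor
      · rintro ⟨_, h⟩
        have h1 : (x - 7) * (x ^ 2 - 5 * x + 10) = 0 := by linarith
        have h2 : x ^ 2 - 5 * x + 10 ≠ 0 := by nlinarith [sq_nonneg (2 * x - 5)]
        have := (mul_eq_zero.mp h1).resolve_right h2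
        linarith
      · rintro rfl; norm_num
    have b : ∀ c : ℝ, 0 < c → {x : ℝ | x < 0 ∧ (cub c).IsRoot x} = ∅ := by
      intro c hc
      ext x
      simp only [Set.mem_ofPred_eq, Set.mem_empty_iff_false, IsRoot.def, cub, eval_sub, eval_add,
        eval_mul, eval_pow, eval_X, eval_C, iff_false, not_and]
      intro hx h
      have : x ^ 3 < 0 := Odd.pow_neg (by decide) hx
      nlinarith [sq_nonneg x]
    rw [Function.iterate_zero_apply, Function.iterate_zero_apply, cnt, cnt, a1, a2,
      b 34 (by norm_num), b 70 (by norm_num)]; simp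
  · rw [Function.iterate_succ_apply, Function.iterate_succ_apply, cub_d1, cub_d1]

/-- the separating function, in terms of the coefficients of a cubic -/
noncomputable def sep (c0 c1 c2 c3 : ℝ) : ℝ :=
  min (min (c2 ^ 2 - 3 * c3 * c1)
    (4 * (3 * c3 * c1 - c2 ^ 2) ^ 3 + (27 * c3 ^ 2 * c0 - 9 * c3 * c2 * c1 + 2 * c2 ^ 3) ^ 2))
    (27 * c3 ^ 2 * c0 - 9 * c3 * c2 * c1 + 2 * c2 ^ 3)

lemma sep_ne_zero {c0 c1 c2 c3 : ℝ} (h3 : 0 < c3)
    (h0 : ∀ x : ℝ, c3 * x ^ 3 + c2 * x ^ 2 + c1 * x + c0 = 0 →
      3 * c3 * x ^ 2 + 2 * c2 * x + c1 ≠ 0)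
    (h1 : ∀ x : ℝ, 3 * c3 * x ^ 2 + 2 * c2 * x + c1 = 0 → 6 * c3 * x + 2 * c2 ≠ 0) :
    sep c0 c1 c2 c3 ≠ 0 := by
  set P := 3 * c3 * c1 - c2 ^ 2 with hP
  set R := 27 * c3 ^ 2 * c0 - 9 * c3 * c2 * c1 + 2 * c2 ^ 3 with hR
  have hP0 : P ≠ 0 := by
    intro h
    apply h1 (-c2 / (3 * c3))
    · field_simp
      linarith
    · field_simp
      ring
  have hD : 4 * P ^ 3 + R ^ 2 ≠ 0 := by
    intro h
    have hc0 : c0 = (R + 9 * c3 * c2 * c1 - 2 * c2 ^ 3) / (27 * c3 ^ 2) := by
      field_simp; rw [hR]; ring
    have hc1 : c1 = (P + c2 ^ 2) / (3 * c3) := by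
      field_simp; rw [hP]; ring
    clear_value P R
    apply h0 (-c2 / (3 * c3) - R / (6 * c3 * P))
    · rw [hc0, hc1]
      field_simp
      linear_combination (-729 * R) * h
    · rw [hc1]
      field_simp
      linear_combination (9 : ℝ) * h
  intro hs
  unfold sep at hs
  rw [← hP, ← hR] at hs
  have e1 : c2 ^ 2 - 3 * c3 * c1 = -P := by rw [hP]; ring
  rw [e1] at hs
  have g1 : 0 ≤ -P := hs ▸ (min_le_left _ _).trans (min_le_left _ _)
  have g2 : 0 ≤ 4 * P ^ 3 + R ^ 2 := hs ▸ (min_le_left _ _).trans (min_le_right _ _)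
  have hPneg : P < 0 := lt_of_le_of_ne (by linarith) hP0
  have hR0 : R = 0 := by
    rcases min_eq_iff.mp hs with ⟨h, _⟩ | ⟨h, _⟩
    · rcases min_eq_iff.mp h with ⟨h, _⟩ | ⟨h, _⟩
      · exact absurd (by linarith) hP0
      · exact absurd h hD
    · exact h
  have : P ^ 3 < 0 := Odd.pow_neg (by decide) hPneg
  rw [hR0] at g2
  nlinarith

end Pool.Agent.MP_5207c4_ag.H41
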